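import Pool.Agent.TH907.Sar.Zero

/-!
Cesàro and logarithmic averages; the weight `μ ^ 2`.
-/

set_option autoImplicit false

namespace Pool.Agent.TH907.Sar

open Finset Filter Topology Pool.Agent.H220M

theorem shift_sum (c : ℕ → ℂ) (hc : ∀ n, ‖c n‖ ≤ 1) (N k : ℕ) :
    ‖∑ m ∈ range N, c (m + k + 1) - ∑ m ∈ range N, c (m + 1)‖ ≤ 2 * k := by
  induction k with
  | zero => simp
  | succ k ih =>
    have h1 : ∑ m ∈ range N, c (m + (k + 1) + 1) + c (k + 1)
        = ∑ m ∈ range N, c (m + k + 1) + c (N + k + 1) := by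
      have h2 := Finset.sum_range_succ (fun m => c (m + k + 1)) N
      have h3 := Finset.sum_range_succ' (fun m => c (m + k + 1)) N
      rw [h2] at h3
      rw [h3]
      congr 1
      · exact Finset.sum_congr rfl fun m _ => by congr 1; ring
      · simp
    have h4 : ∑ m ∈ range N, c (m + (k + 1) + 1) - ∑ m ∈ range N, c (m + 1)
        = (∑ m ∈ range N, c (m + k + 1) - ∑ m ∈ range N, c (m + 1))
          + (c (N + k + 1) - c (k + 1)) := by
      have h5 : ∑ m ∈ range N, c (m + (k + 1) + 1)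
          = ∑ m ∈ range N, c (m + k + 1) + c (N + k + 1) - c (k + 1) := by
        rw [← h1]; ring
      rw [h5]; ring
    rw [h4]
    have h6 := norm_add_le (∑ m ∈ range N, c (m + k + 1) - ∑ m ∈ range N, c (m + 1))
      (c (N + k + 1) - c (k + 1))
    have h7 := norm_sub_le (c (N + k + 1)) (c (k + 1))
    have h8 := hc (N + k + 1)
    have h9 := hc (k + 1)
    push_cast
    linarith

/-- from blocks to the whole sum -/
theorem sum_le_blocks (c : ℕ → ℂ) (hc : ∀ n, ‖c n‖ ≤ 1) (N L : ℕ) :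
    (L : ℝ) * ‖∑ m ∈ range N, c (m + 1)‖
      ≤ ∑ m ∈ range N, ‖∑ k ∈ range L, c (m + k + 1)‖ + 2 * L * L := by
  have h1 : (L : ℂ) * ∑ m ∈ range N, c (m + 1) = ∑ m ∈ range N, ∑ k ∈ range L, c (m + k + 1)
      - ∑ k ∈ range L, (∑ m ∈ range N, c (m + k + 1) - ∑ m ∈ range N, c (m + 1)) := by
    rw [Finset.sum_sub_distrib, Finset.sum_comm, Finset.sum_const, Finset.card_range, nsmul_eq_mul]
    ring
  calc (L : ℝ) * ‖∑ m ∈ range N, c (m + 1)‖ = ‖(L : ℂ) * ∑ m ∈ range N, c (m + 1)‖ := by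
        rw [norm_mul]; simp
    _ ≤ ‖∑ m ∈ range N, ∑ k ∈ range L, c (m + k + 1)‖
      + ‖∑ k ∈ range L, (∑ m ∈ range N, c (m + k + 1) - ∑ m ∈ range N, c (m + 1))‖ := by
        rw [h1]; exact norm_sub_le _ _
    _ ≤ ∑ m ∈ range N, ‖∑ k ∈ range L, c (m + k + 1)‖ + ∑ _k ∈ range L, (2 * L : ℝ) := by
        refine add_le_add (norm_sum_le _ _) ((norm_sum_le _ _).trans ?_)
        refine Finset.sum_le_sum fun k hk => ?_
        refine (shift_sum c hc N k).trans ?_
        have : (k : ℝ) ≤ L := by exact_mod_cast (Finset.mem_range.1 hk).le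
        linarith
    _ = _ := by rw [Finset.sum_const, Finset.card_range, nsmul_eq_mul]; ring

theorem range_eq_Icc (c : ℕ → ℂ) (N : ℕ) : ∑ n ∈ Icc 1 N, c n = ∑ m ∈ range N, c (m + 1) := by
  rw [Finset.range_eq_Ico, Finset.sum_Ico_add' (fun n => c n) 0 N 1]
  apply Finset.sum_congr _ (fun _ _ => rfl)
  ext n
  simp only [Finset.mem_Icc, Finset.mem_Ico]
  omega

/-- the Cesàro averages, for a function bounded by one -/
theorem cesaro_one (f : ℕ → ℤˣ) (hf : Chow f) {X : Type*} [MetricSpace X] [CompactSpace X]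
    (T : X → X) (hE : Dynamics.coverEntropy T Set.univ ≤ 0) (F : X → ℂ) (hF : Continuous F)
    (hF1 : ∀ x, ‖F x‖ ≤ 1) (c : ℕ → ℂ) (hc : Rap c) (ε : ℝ) (hε : 0 < ε) :
    ∀ᶠ N : ℕ in atTop, ∀ x : X,
      ‖∑ n ∈ Icc 1 N, F (T^[n] x) * c n * (((f n : ℤˣ) : ℤ) : ℂ)‖ ≤ ε * N := by
  obtain ⟨L₀, hL₀⟩ := zero_rap f hf T hE F hF hF1 c hc (ε / 2) (by positivity)
  set L := max L₀ 1 with hL
  have hL1 : 1 ≤ L := le_max_right _ _
  have hLr : (1 : ℝ) ≤ L := by exact_mod_cast hL1
  have hbig : ∀ᶠ N : ℕ in atTop, 2 * (L : ℝ) ≤ ε / 2 * N := by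
    have h1 : Tendsto (fun N : ℕ => ε / 2 * (N : ℝ)) atTop atTop :=
      Tendsto.const_mul_atTop (by positivity) tendsto_natCast_atTop_atTop
    exact h1.eventually (eventually_ge_atTop _)
  filter_upwards [hL₀ L (le_max_left _ _), hbig] with N hN hN2 x
  have h1 := hN (fun m => T^[m + 1] x)
  set d : ℕ → ℂ := fun n => F (T^[n] x) * c n * (((f n : ℤˣ) : ℤ) : ℂ) with hd
  have hd1 : ∀ n, ‖d n‖ ≤ 1 := by
    intro n
    rw [hd]
    show ‖F (T^[n] x) * c n * (((f n : ℤˣ) : ℤ) : ℂ)‖ ≤ 1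
    rw [norm_mul, norm_mul, unit_norm, mul_one]
    exact mul_le_one₀ (hF1 _) (norm_nonneg _) (hc.1 _)
  have h2 := sum_le_blocks d hd1 N L
  rw [range_eq_Icc]
  have h3 : ∑ m ∈ range N, ‖∑ k ∈ range L, d (m + k + 1)‖ ≤ ε / 2 * (L * N) := by
    refine le_trans (le_of_eq ?_) h1
    refine Finset.sum_congr rfl fun m _ => ?_
    congr 1
    refine Finset.sum_congr rfl fun k _ => ?_
    rw [hd]
    show F (T^[m + k + 1] x) * c (m + k + 1) * _ = _
    rw [← Function.iterate_add_apply, show k + (m + 1) = m + k + 1 by ring]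
  have h4 : (L : ℝ) * ‖∑ m ∈ range N, d (m + 1)‖ ≤ L * (ε / 2 * N + 2 * L) := by
    calc _ ≤ _ := h2
      _ ≤ ε / 2 * (L * N) + 2 * L * L := by linarith
      _ = _ := by ring
  have h5 : ‖∑ m ∈ range N, d (m + 1)‖ ≤ ε / 2 * N + 2 * L :=
    le_of_mul_le_mul_left h4 (by linarith)
  linarith

/-- Cesàro convergence to zero gives logarithmic convergence to zero -/
theorem log_of_cesaro (a : ℕ → ℂ)
    (h : Tendsto (fun N : ℕ => (1 / (N : ℂ)) * ∑ n ∈ Icc 1 N, a n) atTop (𝓝 0)) :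
    Tendsto (fun N : ℕ => (1 / (Real.log (N : ℝ) : ℂ)) * ∑ n ∈ Icc 1 N, a n / (n : ℂ)) atTop
      (𝓝 0) := by
  set A : ℕ → ℂ := fun N => ∑ n ∈ Icc 1 N, a n with hA
  set S : ℕ → ℂ := fun N => ∑ n ∈ Icc 1 N, a n / (n : ℂ) with hS
  rw [Metric.tendsto_atTop]
  intro ε hε
  obtain ⟨N₀, hN₀⟩ := (Metric.tendsto_atTop.1 h) (ε / 4) (by positivity)
  set M := max N₀ 1 with hM
  have hAb : ∀ N ≥ M, ‖A N‖ ≤ ε / 4 * N := by
    intro N hN
    have hN1 : 1 ≤ N := (le_max_right _ _).trans hN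
    have hN0 : (0 : ℝ) < N := by exact_mod_cast hN1
    have h1 := hN₀ N ((le_max_left _ _).trans hN)
    rw [dist_zero_right, norm_mul, norm_div, norm_one, Complex.norm_natCast, one_div,
      inv_mul_lt_iff₀ hN0] at h1
    linarith
  set D : ℕ → ℂ := fun N => S N - A N / N with hD
  have hstep : ∀ N ≥ M, ‖D (N + 1) - D N‖ ≤ ε / 4 * (1 / ((N : ℝ) + 1)) := by
    intro N hN
    have hN1 : 1 ≤ N := (le_max_right _ _).trans hN
    have hN0 : (N : ℂ) ≠ 0 := by
      have : N ≠ 0 := by omega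
      exact_mod_cast this
    have hN0' : ((N : ℂ) + 1) ≠ 0 := by
      have : (N + 1 : ℕ) ≠ 0 := by omega
      exact_mod_cast this
    have e1 : S (N + 1) = S N + a (N + 1) / ((N : ℂ) + 1) := by
      simp only [hS]
      rw [Finset.sum_Icc_succ_top (by omega)]
      push_cast; rfl
    have e2 : A (N + 1) = A N + a (N + 1) := by
      simp only [hA]
      rw [Finset.sum_Icc_succ_top (by omega)]
    have e3 : D (N + 1) - D N = A N / (N * (N + 1)) := by
      simp only [hD]
      rw [e1, e2]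
      push_cast
      field_simp
      ring
    have hNr : (0 : ℝ) < N := by exact_mod_cast hN1
    rw [e3, norm_div, norm_mul, Complex.norm_natCast]
    have e4 : ‖(N : ℂ) + 1‖ = (N : ℝ) + 1 := by
      have : ((N : ℂ) + 1) = ((N + 1 : ℕ) : ℂ) := by push_cast; ring
      rw [this, Complex.norm_natCast]; push_cast; ring
    rw [e4, div_le_iff₀ (by positivity)]
    calc ‖A N‖ ≤ ε / 4 * N := hAb N hN
      _ = ε / 4 * (1 / ((N : ℝ) + 1)) * (N * (N + 1)) := by field_simp
  have hDb : ∀ N ≥ M, ‖D N‖ ≤ ‖D M‖ + ε / 4 * (∑ n ∈ Icc 1 N, (1 : ℝ) / n) := by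
    intro N hN
    induction N, hN using Nat.le_induction with
    | base =>
      have : 0 ≤ ∑ n ∈ Icc 1 M, (1 : ℝ) / n := Finset.sum_nonneg fun n _ => by positivity
      nlinarith
    | succ N hN ih =>
      have h1 := hstep N hN
      have h2 : ‖D (N + 1)‖ ≤ ‖D (N + 1) - D N‖ + ‖D N‖ := by
        calc ‖D (N + 1)‖ = ‖(D (N + 1) - D N) + D N‖ := by rw [sub_add_cancel]
          _ ≤ _ := norm_add_le _ _
      rw [Finset.sum_Icc_succ_top (by omega)]
      push_cast
      linarith [mul_add (ε / 4) (∑ n ∈ Icc 1 N, (1 : ℝ) / n) (1 / ((N : ℝ) + 1))]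
  have hharm : ∀ N : ℕ, ∑ n ∈ Icc 1 N, (1 : ℝ) / n ≤ 1 + Real.log N := by
    intro N
    have h1 := harmonic_le_one_add_log N
    rw [harmonic_eq_sum_Icc] at h1
    push_cast at h1
    simpa [one_div] using h1
  -- conclusion
  have hlog : ∀ᶠ N : ℕ in atTop, ‖D M‖ + ε / 4 + ε / 4 ≤ ε / 4 * Real.log N := by
    have h1 : Tendsto (fun N : ℕ => ε / 4 * Real.log (N : ℝ)) atTop atTop :=
      Tendsto.const_mul_atTop (by positivity) (Real.tendsto_log_atTop.comp tendsto_natCast_atTop_atTop)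
    exact h1.eventually (eventually_ge_atTop _)
  obtain ⟨N₁, hN₁⟩ := eventually_atTop.1 (hlog.and (eventually_ge_atTop (max M 3)))
  refine ⟨N₁, fun N hN => ?_⟩
  obtain ⟨h1, h2⟩ := hN₁ N hN
  have hNM : M ≤ N := (le_max_left _ _).trans h2
  have hN3 : 3 ≤ N := (le_max_right _ _).trans h2
  have hN0 : (0 : ℝ) < N := by
    have : 0 < N := by omega
    exact_mod_cast this
  have hlogpos : 0 < Real.log N := Real.log_pos (by
    have : (3 : ℝ) ≤ N := by exact_mod_cast hN3
    linarith)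
  rw [dist_zero_right, norm_mul, norm_div, norm_one]
  rw [Complex.norm_real, Real.norm_eq_abs, abs_of_pos hlogpos, one_div, inv_mul_lt_iff₀ hlogpos]
  have h3 : S N = D N + A N / N := by simp only [hD]; ring
  have h4 : ‖A N / N‖ ≤ ε / 4 := by
    rw [norm_div, Complex.norm_natCast, div_le_iff₀ hN0]
    exact hAb N hNM
  have h5 : ‖S N‖ ≤ ‖D N‖ + ε / 4 := by
    rw [h3]
    exact (norm_add_le _ _).trans (add_le_add le_rfl h4)
  have h6 := hDb N hNM
  have h7 := mul_le_mul_of_nonneg_left (hharm N) (show 0 ≤ ε / 4 by positivity)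
  have h8 : ‖S N‖ < Real.log N * ε := by nlinarith
  exact h8

/-- weights: constants -/
theorem rap_one : Rap (fun _ => 1) :=
  ⟨fun _ => by simp, fun ε hε => ⟨fun _ => 1, 1, one_pos, fun _ => by simp, fun _ => rfl, by
    filter_upwards with N
    simp only [sub_self, norm_zero, Finset.sum_const_zero]
    positivity⟩⟩

/-- weights: squarefree numbers -/
theorem rap_sq : Rap (fun n => (((ArithmeticFunction.moebius n : ℤ) ^ 2 : ℤ) : ℂ)) := by
  classical
  constructor
  · intro n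
    beta_reduce
    rw [ArithmeticFunction.moebius_sq]
    split_ifs <;> simp
  intro ε hε
  obtain ⟨D, hD⟩ := exists_nat_gt (1 / ε)
  have hD0 : 0 < D := by
    rcases Nat.eq_zero_or_pos D with h | h
    · rw [h] at hD
      have : 0 < 1 / ε := by positivity
      simp at hD
      linarith [hD, inv_pos.2 hε]
    · exact h
  -- not divisible by `d ^ 2`, `2 ≤ d ≤ D`
  set P : ℕ := ∏ d ∈ Icc 1 D, d ^ 2 with hP
  have hP0 : 0 < P := Finset.prod_pos fun d hd => pow_pos (by
    have := (Finset.mem_Icc.1 hd).1; omega) 2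
  refine ⟨fun n => if ∀ d ∈ Icc 2 D, ¬ d ^ 2 ∣ n then 1 else 0, P, hP0, ?_, ?_, ?_⟩
  · intro n; beta_reduce; split_ifs <;> simp
  · intro n
    have h1 : (∀ d ∈ Icc 2 D, ¬ d ^ 2 ∣ n + P) ↔ (∀ d ∈ Icc 2 D, ¬ d ^ 2 ∣ n) := by
      refine forall_congr' fun d => forall_congr' fun hd => ?_
      have hdP : d ^ 2 ∣ P := Finset.dvd_prod_of_mem (fun d => d ^ 2) (Finset.mem_Icc.2
        ⟨by have := (Finset.mem_Icc.1 hd).1; omega, (Finset.mem_Icc.1 hd).2⟩)
      rw [Nat.dvd_add_left hdP]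
    simp only [h1]
  · filter_upwards [eventually_ge_atTop 1] with N hN
    -- each term is at most the number of `d` with `D < d`, `d ^ 2 ∣ n + 1`
    have hterm : ∀ n ∈ range N, ‖(((ArithmeticFunction.moebius (n + 1) : ℤ) ^ 2 : ℤ) : ℂ)
        - (if ∀ d ∈ Icc 2 D, ¬ d ^ 2 ∣ n + 1 then (1 : ℂ) else 0)‖
        ≤ ∑ d ∈ Ioc D N, if d ^ 2 ∣ n + 1 then (1 : ℝ) else 0 := by
      intro n hn
      rw [Finset.mem_range] at hn
      have hnn : 0 ≤ ∑ d ∈ Ioc D N, if d ^ 2 ∣ n + 1 then (1 : ℝ) else 0 :=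
        Finset.sum_nonneg fun d _ => by split_ifs <;> norm_num
      rw [ArithmeticFunction.moebius_sq]
      by_cases hsq : Squarefree (n + 1)
      · have h1 : ∀ d ∈ Icc 2 D, ¬ d ^ 2 ∣ n + 1 := by
          intro d hd hdv
          have h2 := hsq d (by rw [← sq]; exact hdv)
          rw [Nat.isUnit_iff] at h2
          have := (Finset.mem_Icc.1 hd).1
          omega
        rw [if_pos hsq, if_pos h1]
        simp [hnn]
      · by_cases h1 : ∀ d ∈ Icc 2 D, ¬ d ^ 2 ∣ n + 1
        · rw [if_neg hsq, if_pos h1]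
          -- there is a large `d`
          obtain ⟨d, hd, hdu⟩ : ∃ d, d * d ∣ n + 1 ∧ ¬ IsUnit d := by
            unfold Squarefree at hsq
            push Not at hsq
            exact hsq
          have hd0 : d ≠ 0 := by
            rintro rfl
            simp at hd
          have hd1 : d ≠ 1 := fun h => hdu (by rw [h]; exact isUnit_one)
          have hdD : D < d := by
            by_contra hcon
            push Not at hcon
            exact h1 d (Finset.mem_Icc.2 ⟨by omega, hcon⟩) (by rw [sq]; exact hd)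
          have hdN : d ≤ N := by
            have h3 := Nat.le_of_dvd (by omega) hd
            nlinarith [Nat.pos_of_ne_zero hd0]
          have h4 : (1 : ℝ) ≤ ∑ d ∈ Ioc D N, if d ^ 2 ∣ n + 1 then (1 : ℝ) else 0 := by
            calc (1 : ℝ) = if d ^ 2 ∣ n + 1 then (1 : ℝ) else 0 := by
                  rw [if_pos (by rw [sq]; exact hd)]
              _ ≤ _ := Finset.single_le_sum (f := fun d => if d ^ 2 ∣ n + 1 then (1 : ℝ) else 0)
                  (fun d _ => by split_ifs <;> norm_num) (Finset.mem_Ioc.2 ⟨hdD, hdN⟩)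
          simpa using h4
        · rw [if_neg hsq, if_neg h1]
          simp [hnn]
    calc ∑ n ∈ range N, ‖(((ArithmeticFunction.moebius (n + 1) : ℤ) ^ 2 : ℤ) : ℂ)
        - (if ∀ d ∈ Icc 2 D, ¬ d ^ 2 ∣ n + 1 then (1 : ℂ) else 0)‖
        ≤ ∑ n ∈ range N, ∑ d ∈ Ioc D N, (if d ^ 2 ∣ n + 1 then (1 : ℝ) else 0) :=
          Finset.sum_le_sum hterm
      _ = ∑ d ∈ Ioc D N, ∑ n ∈ range N, (if d ^ 2 ∣ n + 1 then (1 : ℝ) else 0) :=
          Finset.sum_comm
      _ ≤ ∑ d ∈ Ioc D N, (N : ℝ) / (d : ℝ) ^ 2 := by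
          refine Finset.sum_le_sum fun d hd => ?_
          rw [Finset.mem_Ioc] at hd
          have hd0 : 0 < d := by omega
          rw [← Finset.sum_filter, Finset.sum_const, nsmul_eq_mul, mul_one]
          have h5 : ((range N).filter (fun n => d ^ 2 ∣ n + 1)).card = N / d ^ 2 := by
            exact Nat.card_multiples N (d ^ 2)
          rw [h5]
          calc ((N / d ^ 2 : ℕ) : ℝ) ≤ (N : ℝ) / ((d ^ 2 : ℕ) : ℝ) := Nat.cast_div_le
            _ = _ := by push_cast; rfl
      _ ≤ N * (1 / D) := by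
          have h6 : ∀ M : ℕ, D ≤ M → ∑ d ∈ Ioc D M, (1 : ℝ) / (d : ℝ) ^ 2 ≤ 1 / D - 1 / M := by
            intro M hM
            induction M, hM using Nat.le_induction with
            | base => simp
            | succ M hM ih =>
              rw [Finset.sum_Ioc_succ_top hM]
              have hM0 : (0 : ℝ) < M := by
                have : 0 < M := lt_of_lt_of_le hD0 hM
                exact_mod_cast this
              have h7 : (1 : ℝ) / ((M + 1 : ℕ) : ℝ) ^ 2 ≤ 1 / M - 1 / ((M + 1 : ℕ) : ℝ) := by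
                push_cast
                rw [div_sub_div _ _ hM0.ne' (by positivity), div_le_div_iff₀ (by positivity) (by positivity)]
                nlinarith
              linarith
          have h8 : ∑ d ∈ Ioc D N, (1 : ℝ) / (d : ℝ) ^ 2 ≤ 1 / D := by
            rcases le_or_gt D N with h | h
            · have h9 := h6 N h
              have : (0 : ℝ) ≤ 1 / N := by positivity
              linarith
            · rw [Finset.Ioc_eq_empty_of_le h.le, Finset.sum_empty]
              positivity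
          calc ∑ d ∈ Ioc D N, (N : ℝ) / (d : ℝ) ^ 2 = N * ∑ d ∈ Ioc D N, (1 : ℝ) / (d : ℝ) ^ 2 := by
                rw [Finset.mul_sum]; exact Finset.sum_congr rfl fun d _ => by ring
            _ ≤ _ := mul_le_mul_of_nonneg_left h8 (Nat.cast_nonneg _)
      _ ≤ ε * N := by
          have h9 : (1 : ℝ) / D ≤ ε := by
            rw [div_le_iff₀ (by exact_mod_cast hD0)]
            rw [div_lt_iff₀ hε] at hD
            linarith
          nlinarith [Nat.cast_nonneg (α := ℝ) N]

end Pool.Agent.TH907.Sar
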