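import Mathlib

/-!
Systems of zero topological entropy: few words.
-/

set_option autoImplicit false

namespace Pool.Agent.TH907.Sar

open Filter Topology Set

/-- zero entropy: for large `L` the orbits of length `L` are `ε`-close to few ones -/
theorem few_words {X : Type*} [MetricSpace X] [CompactSpace X] (T : X → X)
    (hE : Dynamics.coverEntropy T Set.univ ≤ 0) (F : X → ℂ) (hF : Continuous F)
    (ε η : ℝ) (hε : 0 < ε) (hη : 0 < η) :
    ∃ L₀ : ℕ, ∀ L ≥ L₀, ∃ s : Finset X, (s.card : ℝ) ≤ Real.exp (η * L) ∧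
      ∀ y : X, ∃ z ∈ s, ∀ k < L, ‖F (T^[k] y) - F (T^[k] z)‖ ≤ ε := by
  have hU : UniformContinuous F := CompactSpace.uniformContinuous_of_continuous hF
  set U : SetRel X X := {p : X × X | dist (F p.1) (F p.2) < ε} with hUdef
  have hUmem : U ∈ uniformity X := hU (Metric.dist_mem_uniformity hε)
  have h1 : Dynamics.coverEntropyEntourage T Set.univ U ≤ 0 :=
    (Dynamics.coverEntropyEntourage_le_coverEntropy T Set.univ hUmem).trans hE
  unfold Dynamics.coverEntropyEntourage at h1
  rw [ExpGrowth.expGrowthSup_le_iff] at h1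
  have h2 := h1 (η : EReal) (by exact_mod_cast hη)
  obtain ⟨L₀, hL₀⟩ := eventually_atTop.1 h2
  refine ⟨L₀, fun L hL => ?_⟩
  have h3 := hL₀ L hL
  have hexp : EReal.exp ((η : EReal) * (L : ℕ)) = ENNReal.ofReal (Real.exp (η * L)) := by
    have : ((η : EReal) * ((L : ℕ) : EReal)) = ((η * L : ℝ) : EReal) := by
      push_cast; rfl
    rw [this, EReal.exp_coe]
  rw [hexp] at h3
  have hfin : Dynamics.coverMincard T Set.univ U L < ⊤ := by
    by_contra hcon
    rw [not_lt, top_le_iff] at hcon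
    rw [hcon] at h3
    simp at h3
  obtain ⟨s, hs, hcard⟩ := (Dynamics.coverMincard_finite_iff T Set.univ U L).1 hfin
  refine ⟨s, ?_, fun y => ?_⟩
  · rw [← hcard] at h3
    have h4 : ((s.card : ℕ) : ENNReal) ≤ ENNReal.ofReal (Real.exp (η * L)) := by
      simpa using h3
    rw [← ENNReal.ofReal_natCast] at h4
    exact (ENNReal.ofReal_le_ofReal_iff (Real.exp_pos _).le).1 h4
  · obtain ⟨z, hz, hyz⟩ := hs (Set.mem_univ y)
    refine ⟨z, hz, fun k hk => ?_⟩
    have h5 := (Dynamics.mem_dynEntourage.1 hyz) k hk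
    have h6 : dist (F (T^[k] y)) (F (T^[k] z)) < ε := h5
    rw [dist_eq_norm] at h6
    exact h6.le

end Pool.Agent.TH907.Sar
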