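import Pool.Agent.TH907.Sar.Hoef
import Pool.Agent.TH907.Sar.Ent
import Pool.Agent.H220M.Base

/-!
A sign function all of whose patterns have the right frequencies is orthogonal to sequences of low
complexity.
-/

set_option autoImplicit false

namespace Pool.Agent.TH907.Sar

open Finset Filter Topology Pool.Agent.H220M

/-- all sign patterns have the frequencies of fair coin tosses -/
def Chow (f : ℕ → ℤˣ) : Prop :=
  ∀ (n : ℕ) (t : Fin n → ℤˣ), Tendsto (fun x : ℕ => (cntU f t x : ℝ) / x) atTop (𝓝 (1 / 2 ^ n))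

theorem bad_count (f : ℕ → ℤˣ) (hf : Chow f) (L : ℕ) (W : Finset (Fin L → ℂ))
    (hW : ∀ w ∈ W, ∀ k, ‖w k‖ ≤ 1) (δ : ℝ) (hδ : 0 ≤ δ) (ρ : ℝ) (hρ : 0 < ρ) :
    ∀ᶠ N : ℕ in atTop, (((range N).filter (fun m => ∃ w ∈ W,
      δ * L ≤ ‖∑ k : Fin L, w k * (((f (m + k + 1) : ℤˣ) : ℤ) : ℂ)‖)).card : ℝ)
        ≤ (W.card * (4 * Real.exp (-(δ ^ 2 * L / 8))) + ρ) * N := by
  classical
  set BB := (univ : Finset (Fin L → ℤˣ)).filter (fun b => ∃ w ∈ W,
    δ * L ≤ ‖∑ k, w k * (((b k : ℤˣ) : ℤ) : ℂ)‖) with hBB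
  have h1 : (BB.card : ℝ) ≤ W.card * (2 ^ L * (4 * Real.exp (-(δ ^ 2 * L / 8)))) := by
    have h2 : BB ⊆ W.biUnion fun w => (univ : Finset (Fin L → ℤˣ)).filter
        (fun b => δ * L ≤ ‖∑ k, w k * (((b k : ℤˣ) : ℤ) : ℂ)‖) := by
      intro b hb
      rw [hBB, Finset.mem_filter] at hb
      obtain ⟨-, w, hw, hb⟩ := hb
      rw [Finset.mem_biUnion]
      exact ⟨w, hw, Finset.mem_filter.2 ⟨Finset.mem_univ _, hb⟩⟩
    have h3 := (Finset.card_le_card h2).trans Finset.card_biUnion_le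
    calc (BB.card : ℝ) ≤ ((∑ w ∈ W, ((univ : Finset (Fin L → ℤˣ)).filter
        (fun b => δ * L ≤ ‖∑ k, w k * (((b k : ℤˣ) : ℤ) : ℂ)‖)).card : ℕ) : ℝ) := by
          exact_mod_cast h3
      _ ≤ ∑ _w ∈ W, (2 ^ L * (4 * Real.exp (-(δ ^ 2 * L / 8)))) := by
          push_cast
          exact Finset.sum_le_sum fun w hw => card_complex L w (hW w hw) δ hδ
      _ = _ := by rw [Finset.sum_const, nsmul_eq_mul]
  have hT : Tendsto (fun N : ℕ => ∑ b ∈ BB, (cntU f b N : ℝ) / N) atTop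
      (𝓝 (∑ _b ∈ BB, (1 : ℝ) / 2 ^ L)) := tendsto_finsetSum _ fun b _ => hf L b
  have hlim : ∑ _b ∈ BB, (1 : ℝ) / 2 ^ L < W.card * (4 * Real.exp (-(δ ^ 2 * L / 8))) + ρ := by
    rw [Finset.sum_const, nsmul_eq_mul]
    have h4 : (BB.card : ℝ) * (1 / 2 ^ L) ≤ W.card * (4 * Real.exp (-(δ ^ 2 * L / 8))) := by
      rw [mul_one_div, div_le_iff₀ (by positivity)]
      calc (BB.card : ℝ) ≤ _ := h1
        _ = _ := by ring
    linarith
  filter_upwards [hT.eventually (gt_mem_nhds hlim), eventually_ge_atTop 1] with N hN hN1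
  have hN0 : (0 : ℝ) < N := by exact_mod_cast hN1
  rw [← Finset.sum_div, div_lt_iff₀ hN0] at hN
  refine le_trans ?_ hN.le
  have h5 : (range N).filter (fun m => ∃ w ∈ W,
      δ * L ≤ ‖∑ k : Fin L, w k * (((f (m + k + 1) : ℤˣ) : ℤ) : ℂ)‖) ⊆
      BB.biUnion fun b => (range N).filter (fun m => ∀ j : Fin L, f (m + j + 1) = b j) := by
    intro m hm
    rw [Finset.mem_filter] at hm
    obtain ⟨hm, w, hw, hle⟩ := hm
    rw [Finset.mem_biUnion]
    refine ⟨fun j => f (m + j + 1), ?_, Finset.mem_filter.2 ⟨hm, fun j => rfl⟩⟩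
    rw [hBB, Finset.mem_filter]
    exact ⟨Finset.mem_univ _, w, hw, hle⟩
  have h6 := (Finset.card_le_card h5).trans Finset.card_biUnion_le
  exact_mod_cast h6

theorem unit_norm (u : ℤˣ) : ‖(((u : ℤˣ) : ℤ) : ℂ)‖ = 1 := by
  rcases Int.units_eq_one_or u with h | h <;> rw [h] <;> simp

/-- the sum over all blocks of the absolute correlation with sequences of low complexity, which may
depend on the block -/
theorem strong (f : ℕ → ℤˣ) (hf : Chow f) (L : ℕ) (W : Finset (Fin L → ℂ))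
    (hW : ∀ w ∈ W, ∀ k, ‖w k‖ ≤ 1) (ε : ℝ) (δ : ℝ) (hδ : 0 ≤ δ) (ρ : ℝ)
    (hρ : 0 < ρ) :
    ∀ᶠ N : ℕ in atTop, ∀ a : ℕ → Fin L → ℂ, (∀ m k, ‖a m k‖ ≤ 1) →
      (∀ m, ∃ w ∈ W, ∀ k, ‖a m k - w k‖ ≤ ε) →
      ∑ m ∈ range N, ‖∑ k : Fin L, a m k * (((f (m + k + 1) : ℤˣ) : ℤ) : ℂ)‖
        ≤ (W.card * (4 * Real.exp (-(δ ^ 2 * L / 8))) + ρ + δ + ε) * (L * N) := by
  classical
  filter_upwards [bad_count f hf L W hW δ hδ ρ hρ] with N hN a ha haw
  set Bad := (range N).filter (fun m => ∃ w ∈ W,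
      δ * L ≤ ‖∑ k : Fin L, w k * (((f (m + k + 1) : ℤˣ) : ℤ) : ℂ)‖) with hBad
  have hε : ∀ m ∈ range N, 0 ≤ ε ∨ L = 0 := by
    intro m _
    rcases Nat.eq_zero_or_pos L with h | h
    · exact Or.inr h
    · obtain ⟨w, _, h2⟩ := haw m
      exact Or.inl ((norm_nonneg _).trans (h2 ⟨0, h⟩))
  have hterm : ∀ m ∈ range N, ‖∑ k : Fin L, a m k * (((f (m + k + 1) : ℤˣ) : ℤ) : ℂ)‖
      ≤ (if m ∈ Bad then (L : ℝ) else 0) + (δ + ε) * L := by
    intro m hm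
    have hεL : 0 ≤ ε * L := by
      rcases hε m hm with h | h
      · positivity
      · rw [h]; simp
    by_cases hb : m ∈ Bad
    · rw [if_pos hb]
      have h1 : ‖∑ k : Fin L, a m k * (((f (m + k + 1) : ℤˣ) : ℤ) : ℂ)‖ ≤ L := by
        calc _ ≤ ∑ k : Fin L, ‖a m k * (((f (m + k + 1) : ℤˣ) : ℤ) : ℂ)‖ := norm_sum_le _ _
          _ ≤ ∑ _k : Fin L, (1 : ℝ) := Finset.sum_le_sum fun k _ => by
              rw [norm_mul, unit_norm, mul_one]; exact ha m k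
          _ = L := by simp
      have h2 : 0 ≤ δ * L := by positivity
      linarith [add_mul δ ε (L : ℝ)]
    · rw [if_neg hb, zero_add]
      obtain ⟨w, hw, hwk⟩ := haw m
      have h1 : ‖∑ k : Fin L, w k * (((f (m + k + 1) : ℤˣ) : ℤ) : ℂ)‖ < δ * L := by
        by_contra hcon
        push Not at hcon
        exact hb (Finset.mem_filter.2 ⟨hm, w, hw, hcon⟩)
      have h2 : ∑ k : Fin L, a m k * (((f (m + k + 1) : ℤˣ) : ℤ) : ℂ)
          = ∑ k : Fin L, (a m k - w k) * (((f (m + k + 1) : ℤˣ) : ℤ) : ℂ)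
            + ∑ k : Fin L, w k * (((f (m + k + 1) : ℤˣ) : ℤ) : ℂ) := by
        rw [← Finset.sum_add_distrib]
        exact Finset.sum_congr rfl fun k _ => by ring
      rw [h2]
      have h3 : ‖∑ k : Fin L, (a m k - w k) * (((f (m + k + 1) : ℤˣ) : ℤ) : ℂ)‖ ≤ ε * L := by
        calc _ ≤ ∑ k : Fin L, ‖(a m k - w k) * (((f (m + k + 1) : ℤˣ) : ℤ) : ℂ)‖ := norm_sum_le _ _
          _ ≤ ∑ _k : Fin L, ε := Finset.sum_le_sum fun k _ => by
              rw [norm_mul, unit_norm, mul_one]; exact hwk k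
          _ = ε * L := by simp [mul_comm]
      have h4 := norm_add_le (∑ k : Fin L, (a m k - w k) * (((f (m + k + 1) : ℤˣ) : ℤ) : ℂ))
        (∑ k : Fin L, w k * (((f (m + k + 1) : ℤˣ) : ℤ) : ℂ))
      linarith [add_mul δ ε (L : ℝ)]
  calc ∑ m ∈ range N, ‖∑ k : Fin L, a m k * (((f (m + k + 1) : ℤˣ) : ℤ) : ℂ)‖
      ≤ ∑ m ∈ range N, ((if m ∈ Bad then (L : ℝ) else 0) + (δ + ε) * L) :=
        Finset.sum_le_sum hterm
    _ = Bad.card * L + N * ((δ + ε) * L) := by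
        rw [Finset.sum_add_distrib, ← Finset.sum_filter, Finset.sum_const, Finset.sum_const,
          Finset.card_range, nsmul_eq_mul, nsmul_eq_mul]
        congr 3
        rw [Finset.filter_mem_eq_inter]
        congr 1
        exact Finset.inter_eq_right.2 (Finset.filter_subset _ _)
    _ ≤ ((W.card * (4 * Real.exp (-(δ ^ 2 * L / 8))) + ρ) * N) * L + N * ((δ + ε) * L) := by
        have := mul_le_mul_of_nonneg_right hN (Nat.cast_nonneg (α := ℝ) L)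
        linarith
    _ = _ := by ring

end Pool.Agent.TH907.Sar
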