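import Pool.Agent.TH907.Sar.Ces

/-!
Disjointness from all systems of zero entropy, for functions without the normalisation.
-/

set_option autoImplicit false

namespace Pool.Agent.TH907.Sar

open Finset Filter Topology Pool.Agent.H220M

/-- the three forms of orthogonality of `ν` to the system `(X, T)`: in short intervals with freely
chosen points, in Cesàro mean uniformly in the point, and in logarithmic mean -/
def Orth (ν : ℕ → ℂ) {X : Type*} [TopologicalSpace X] (T : X → X) : Prop :=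
  ∀ F : X → ℂ, Continuous F →
    (∀ ε : ℝ, 0 < ε → ∃ L₀ : ℕ, ∀ L ≥ L₀, ∀ᶠ N : ℕ in atTop, ∀ y : ℕ → X,
      ∑ m ∈ range N, ‖∑ k ∈ range L, F (T^[k] (y m)) * ν (m + k + 1)‖ ≤ ε * (L * N)) ∧
    (∀ ε : ℝ, 0 < ε → ∀ᶠ N : ℕ in atTop, ∀ x : X,
      ‖∑ n ∈ Icc 1 N, F (T^[n] x) * ν n‖ ≤ ε * N) ∧
    (∀ x : X, Tendsto (fun N : ℕ => (1 / (Real.log (N : ℝ) : ℂ)) *
      ∑ n ∈ Icc 1 N, F (T^[n] x) * ν n / (n : ℂ)) atTop (𝓝 0))

theorem orth_of_chow (f : ℕ → ℤˣ) (hf : Chow f) {X : Type*} [MetricSpace X] [CompactSpace X]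
    (T : X → X) (hE : Dynamics.coverEntropy T Set.univ ≤ 0) (c : ℕ → ℂ) (hc : Rap c) :
    Orth (fun n => c n * (((f n : ℤˣ) : ℤ) : ℂ)) T := by
  intro F hF
  obtain ⟨B, hB⟩ : ∃ B : ℝ, ∀ x : X, ‖F x‖ ≤ B := by
    obtain ⟨B, hB⟩ := isCompact_univ.exists_bound_of_continuousOn hF.continuousOn
    exact ⟨B, fun x => hB x (Set.mem_univ x)⟩
  set D : ℝ := max B 1 with hD
  have hD0 : 0 < D := lt_of_lt_of_le one_pos (le_max_right _ _)
  have hD1 : (D : ℂ) ≠ 0 := by exact_mod_cast hD0.ne'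
  set G : X → ℂ := fun x => F x / D with hG
  have hGc : Continuous G := hF.div_const _
  have hG1 : ∀ x, ‖G x‖ ≤ 1 := by
    intro x
    show ‖F x / D‖ ≤ 1
    rw [norm_div, Complex.norm_real, Real.norm_eq_abs, abs_of_pos hD0, div_le_one hD0]
    exact (hB x).trans (le_max_left _ _)
  have hFG : ∀ x, F x = D * G x := by
    intro x
    show F x = D * (F x / D)
    field_simp
  have hces : ∀ ε : ℝ, 0 < ε → ∀ᶠ N : ℕ in atTop, ∀ x : X,
      ‖∑ n ∈ Icc 1 N, F (T^[n] x) * (c n * (((f n : ℤˣ) : ℤ) : ℂ))‖ ≤ ε * N := by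
    intro ε hε
    filter_upwards [cesaro_one f hf T hE G hGc hG1 c hc (ε / D) (by positivity)] with N hN x
    have h1 : ∑ n ∈ Icc 1 N, F (T^[n] x) * (c n * (((f n : ℤˣ) : ℤ) : ℂ))
        = D * ∑ n ∈ Icc 1 N, G (T^[n] x) * c n * (((f n : ℤˣ) : ℤ) : ℂ) := by
      rw [Finset.mul_sum]
      refine Finset.sum_congr rfl fun n _ => ?_
      rw [hFG]; ring
    rw [h1, norm_mul, Complex.norm_real, Real.norm_eq_abs, abs_of_pos hD0]
    calc D * ‖∑ n ∈ Icc 1 N, G (T^[n] x) * c n * (((f n : ℤˣ) : ℤ) : ℂ)‖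
        ≤ D * (ε / D * N) := mul_le_mul_of_nonneg_left (hN x) hD0.le
      _ = ε * N := by field_simp
  refine ⟨fun ε hε => ?_, hces, fun x => ?_⟩
  · obtain ⟨L₀, hL₀⟩ := zero_rap f hf T hE G hGc hG1 c hc (ε / D) (by positivity)
    refine ⟨L₀, fun L hL => ?_⟩
    filter_upwards [hL₀ L hL] with N hN y
    have h1 : ∑ m ∈ range N, ‖∑ k ∈ range L, F (T^[k] (y m)) *
          (c (m + k + 1) * (((f (m + k + 1) : ℤˣ) : ℤ) : ℂ))‖
        = D * ∑ m ∈ range N, ‖∑ k ∈ range L, G (T^[k] (y m)) * c (m + k + 1) *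
          (((f (m + k + 1) : ℤˣ) : ℤ) : ℂ)‖ := by
      rw [Finset.mul_sum]
      refine Finset.sum_congr rfl fun m _ => ?_
      have h2 : ∑ k ∈ range L, F (T^[k] (y m)) *
          (c (m + k + 1) * (((f (m + k + 1) : ℤˣ) : ℤ) : ℂ))
          = D * ∑ k ∈ range L, G (T^[k] (y m)) * c (m + k + 1) *
          (((f (m + k + 1) : ℤˣ) : ℤ) : ℂ) := by
        rw [Finset.mul_sum]
        refine Finset.sum_congr rfl fun k _ => ?_
        rw [hFG]; ring
      rw [h2, norm_mul, Complex.norm_real, Real.norm_eq_abs, abs_of_pos hD0]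
    rw [h1]
    calc D * ∑ m ∈ range N, ‖∑ k ∈ range L, G (T^[k] (y m)) * c (m + k + 1) *
          (((f (m + k + 1) : ℤˣ) : ℤ) : ℂ)‖
        ≤ D * (ε / D * (L * N)) := mul_le_mul_of_nonneg_left (hN y) hD0.le
      _ = ε * (L * N) := by field_simp
  · have h1 := log_of_cesaro (fun n => F (T^[n] x) * (c n * (((f n : ℤˣ) : ℤ) : ℂ))) (by
      rw [Metric.tendsto_atTop]
      intro ε hε
      obtain ⟨N₀, hN₀⟩ := eventually_atTop.1 (hces (ε / 2) (by positivity))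
      refine ⟨max N₀ 1, fun N hN => ?_⟩
      have hN1 : 1 ≤ N := (le_max_right _ _).trans hN
      have hN0 : (0 : ℝ) < N := by exact_mod_cast hN1
      have h2 := hN₀ N ((le_max_left _ _).trans hN) x
      rw [dist_zero_right, norm_mul, norm_div, norm_one, Complex.norm_natCast, one_div,
        inv_mul_lt_iff₀ hN0]
      nlinarith)
    exact h1

end Pool.Agent.TH907.Sar
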