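import Mathlib

/-!
Sign vectors correlated with bounded vectors are rare.
-/

set_option autoImplicit false

namespace Pool.Agent.TH907.Sar

open Finset

theorem card_real (L : ℕ) (w : Fin L → ℝ) (hw : ∀ k, |w k| ≤ 1) (δ : ℝ) (hδ : 0 ≤ δ) :
    (((univ : Finset (Fin L → ℤˣ)).filter
      (fun b => δ * L ≤ ∑ k, w k * (((b k : ℤˣ) : ℤ) : ℝ))).card : ℝ)
      ≤ 2 ^ L * Real.exp (-(δ ^ 2 * L / 2)) := by
  classical
  set B := (univ : Finset (Fin L → ℤˣ)).filter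
      (fun b => δ * L ≤ ∑ k, w k * (((b k : ℤˣ) : ℤ) : ℝ)) with hB
  have h1 : (B.card : ℝ) * Real.exp (δ * (δ * L)) ≤
      ∑ b : Fin L → ℤˣ, ∏ k, Real.exp (δ * (w k * (((b k : ℤˣ) : ℤ) : ℝ))) := by
    calc (B.card : ℝ) * Real.exp (δ * (δ * L)) = ∑ b ∈ B, Real.exp (δ * (δ * L)) := by
          rw [Finset.sum_const, nsmul_eq_mul]
      _ ≤ ∑ b ∈ B, ∏ k, Real.exp (δ * (w k * (((b k : ℤˣ) : ℤ) : ℝ))) := by
          refine Finset.sum_le_sum fun b hb => ?_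
          rw [← Real.exp_sum, ← Finset.mul_sum]
          refine Real.exp_le_exp.2 (mul_le_mul_of_nonneg_left ?_ hδ)
          exact (Finset.mem_filter.1 hb).2
      _ ≤ _ := Finset.sum_le_sum_of_subset_of_nonneg (Finset.filter_subset _ _)
          (fun b _ _ => Finset.prod_nonneg fun k _ => (Real.exp_pos _).le)
  have h2 : ∑ b : Fin L → ℤˣ, ∏ k, Real.exp (δ * (w k * (((b k : ℤˣ) : ℤ) : ℝ)))
      = ∏ k : Fin L, ∑ u : ℤˣ, Real.exp (δ * (w k * (((u : ℤˣ) : ℤ) : ℝ))) := by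
    rw [Finset.prod_univ_sum, Fintype.piFinset_univ]
  have h3 : ∀ k : Fin L, ∑ u : ℤˣ, Real.exp (δ * (w k * (((u : ℤˣ) : ℤ) : ℝ)))
      ≤ 2 * Real.exp (δ ^ 2 / 2) := by
    intro k
    have h4 : ∑ u : ℤˣ, Real.exp (δ * (w k * (((u : ℤˣ) : ℤ) : ℝ)))
        = 2 * Real.cosh (δ * w k) := by
      rw [show (univ : Finset ℤˣ) = {1, -1} from rfl, Finset.sum_pair (by decide), Real.cosh_eq]
      push_cast
      rw [show δ * (w k * 1) = δ * w k by ring, show δ * (w k * -1) = -(δ * w k) by ring]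
      ring
    rw [h4]
    have h5 : Real.cosh (δ * w k) ≤ Real.exp ((δ * w k) ^ 2 / 2) := Real.cosh_le_exp_half_sq _
    have h6 : (δ * w k) ^ 2 ≤ δ ^ 2 := by
      rw [mul_pow]
      have : (w k) ^ 2 ≤ 1 := by
        rw [← sq_abs]
        exact pow_le_one₀ (abs_nonneg _) (hw k)
      nlinarith [sq_nonneg δ]
    have h7 : Real.exp ((δ * w k) ^ 2 / 2) ≤ Real.exp (δ ^ 2 / 2) :=
      Real.exp_le_exp.2 (by linarith)
    linarith
  have h4 : ∏ k : Fin L, ∑ u : ℤˣ, Real.exp (δ * (w k * (((u : ℤˣ) : ℤ) : ℝ)))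
      ≤ 2 ^ L * Real.exp (δ ^ 2 / 2 * L) := by
    calc _ ≤ ∏ _k : Fin L, (2 * Real.exp (δ ^ 2 / 2)) :=
          Finset.prod_le_prod (fun k _ => Finset.sum_nonneg fun u _ => (Real.exp_pos _).le)
            (fun k _ => h3 k)
      _ = _ := by
          rw [Finset.prod_const, Finset.card_univ, Fintype.card_fin, mul_pow, ← Real.exp_nat_mul]
          ring_nf
  have h5 : (B.card : ℝ) * Real.exp (δ * (δ * L)) ≤ 2 ^ L * Real.exp (δ ^ 2 / 2 * L) :=
    (h1.trans h2.le).trans h4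
  have h6 : Real.exp (δ ^ 2 / 2 * L) = Real.exp (-(δ ^ 2 * L / 2)) * Real.exp (δ * (δ * L)) := by
    rw [← Real.exp_add]; congr 1; ring
  have h7 : (B.card : ℝ) * Real.exp (δ * (δ * L))
      ≤ (2 ^ L * Real.exp (-(δ ^ 2 * L / 2))) * Real.exp (δ * (δ * L)) :=
    h5.trans_eq (by rw [h6]; ring)
  exact le_of_mul_le_mul_right h7 (Real.exp_pos _)

theorem card_complex (L : ℕ) (w : Fin L → ℂ) (hw : ∀ k, ‖w k‖ ≤ 1) (δ : ℝ) (hδ : 0 ≤ δ) :
    (((univ : Finset (Fin L → ℤˣ)).filter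
      (fun b => δ * L ≤ ‖∑ k, w k * (((b k : ℤˣ) : ℤ) : ℂ)‖)).card : ℝ)
      ≤ 2 ^ L * (4 * Real.exp (-(δ ^ 2 * L / 8))) := by
  classical
  have hre : ∀ k, |(w k).re| ≤ 1 := fun k => (Complex.abs_re_le_norm _).trans (hw k)
  have him : ∀ k, |(w k).im| ≤ 1 := fun k => (Complex.abs_im_le_norm _).trans (hw k)
  have e : (δ / 2) ^ 2 * L / 2 = δ ^ 2 * L / 8 := by ring
  have h1 := card_real L (fun k => (w k).re) hre (δ / 2) (by positivity)
  have h2 := card_real L (fun k => -(w k).re) (fun k => by rw [abs_neg]; exact hre k) (δ / 2)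
    (by positivity)
  have h3 := card_real L (fun k => (w k).im) him (δ / 2) (by positivity)
  have h4 := card_real L (fun k => -(w k).im) (fun k => by rw [abs_neg]; exact him k) (δ / 2)
    (by positivity)
  rw [e] at h1 h2 h3 h4
  set B1 := (univ : Finset (Fin L → ℤˣ)).filter
      (fun b => δ / 2 * L ≤ ∑ k, (w k).re * (((b k : ℤˣ) : ℤ) : ℝ))
  set B2 := (univ : Finset (Fin L → ℤˣ)).filter
      (fun b => δ / 2 * L ≤ ∑ k, -(w k).re * (((b k : ℤˣ) : ℤ) : ℝ))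
  set B3 := (univ : Finset (Fin L → ℤˣ)).filter
      (fun b => δ / 2 * L ≤ ∑ k, (w k).im * (((b k : ℤˣ) : ℤ) : ℝ))
  set B4 := (univ : Finset (Fin L → ℤˣ)).filter
      (fun b => δ / 2 * L ≤ ∑ k, -(w k).im * (((b k : ℤˣ) : ℤ) : ℝ))
  have hsub : (univ : Finset (Fin L → ℤˣ)).filter
      (fun b => δ * L ≤ ‖∑ k, w k * (((b k : ℤˣ) : ℤ) : ℂ)‖) ⊆ (B1 ∪ B2) ∪ (B3 ∪ B4) := by
    intro b hb
    rw [Finset.mem_filter] at hb
    have h5 := hb.2
    have hsre : (∑ k, w k * (((b k : ℤˣ) : ℤ) : ℂ)).re = ∑ k, (w k).re * (((b k : ℤˣ) : ℤ) : ℝ) := by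
      rw [Complex.re_sum]
      refine Finset.sum_congr rfl fun k _ => ?_
      simp
    have hsim : (∑ k, w k * (((b k : ℤˣ) : ℤ) : ℂ)).im = ∑ k, (w k).im * (((b k : ℤˣ) : ℤ) : ℝ) := by
      rw [Complex.im_sum]
      refine Finset.sum_congr rfl fun k _ => ?_
      simp
    have h6 := Complex.norm_le_abs_re_add_abs_im (∑ k, w k * (((b k : ℤˣ) : ℤ) : ℂ))
    rw [hsre, hsim] at h6
    have h7 : δ / 2 * L ≤ |∑ k, (w k).re * (((b k : ℤˣ) : ℤ) : ℝ)| ∨
        δ / 2 * L ≤ |∑ k, (w k).im * (((b k : ℤˣ) : ℤ) : ℝ)| := by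
      by_contra hcon
      push Not at hcon
      linarith [hcon.1, hcon.2]
    simp only [Finset.mem_union, B1, B2, B3, B4, Finset.mem_filter, Finset.mem_univ, true_and]
    rcases h7 with h7 | h7
    · left
      rcases le_abs'.1 h7 with h8 | h8
      · right
        have : ∑ k, -(w k).re * (((b k : ℤˣ) : ℤ) : ℝ) = -∑ k, (w k).re * (((b k : ℤˣ) : ℤ) : ℝ) := by
          rw [← Finset.sum_neg_distrib]; exact Finset.sum_congr rfl fun k _ => by ring
        rw [this]; linarith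
      · left; exact h8
    · right
      rcases le_abs'.1 h7 with h8 | h8
      · right
        have : ∑ k, -(w k).im * (((b k : ℤˣ) : ℤ) : ℝ) = -∑ k, (w k).im * (((b k : ℤˣ) : ℤ) : ℝ) := by
          rw [← Finset.sum_neg_distrib]; exact Finset.sum_congr rfl fun k _ => by ring
        rw [this]; linarith
      · left; exact h8
  have h5 : (((univ : Finset (Fin L → ℤˣ)).filter
      (fun b => δ * L ≤ ‖∑ k, w k * (((b k : ℤˣ) : ℤ) : ℂ)‖)).card : ℝ)
      ≤ (B1.card + B2.card) + (B3.card + B4.card) := by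
    have h6 := Finset.card_le_card hsub
    have h7 := Finset.card_union_le (B1 ∪ B2) (B3 ∪ B4)
    have h8 := Finset.card_union_le B1 B2
    have h9 := Finset.card_union_le B3 B4
    exact_mod_cast (by omega)
  linarith

end Pool.Agent.TH907.Sar
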