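import Pool.Agent.TH907.Sar.Fin
import Pool.Agent.H220M.Fin8
import Pool.Agent.H220M.M1
import Pool.Agent.H220M.M2
import Pool.Agent.H220M.M3
import Pool.Agent.H220M.M4a
import Pool.Agent.H220M.M4
import Pool.Agent.H220M.M5
import Pool.Agent.H220M.M6a
import Pool.Agent.H220M.M6b
import Pool.Agent.H220M.M6
import Pool.Agent.H220M.P2

/-!
Random modifications.
-/

set_option autoImplicit false

namespace Pool.Agent.TH907.Sar

open Finset Filter Topology Pool.Agent.H220M MeasureTheory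

theorem Orth.congr {ν ν' : ℕ → ℂ} (h : ∀ n, 1 ≤ n → ν n = ν' n) {X : Type*} [TopologicalSpace X]
    {T : X → X} (hν : Orth ν T) : Orth ν' T := by
  intro F hF
  obtain ⟨h1, h2, h3⟩ := hν F hF
  refine ⟨fun ε hε => ?_, fun ε hε => ?_, fun x => ?_⟩
  · obtain ⟨L₀, hL₀⟩ := h1 ε hε
    refine ⟨L₀, fun L hL => ?_⟩
    filter_upwards [hL₀ L hL] with N hN y
    refine le_trans (le_of_eq ?_) (hN y)
    refine Finset.sum_congr rfl fun m _ => ?_
    congr 1
    refine Finset.sum_congr rfl fun k _ => ?_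
    rw [h (m + k + 1) (by omega)]
  · filter_upwards [h2 ε hε] with N hN x
    refine le_trans (le_of_eq ?_) (hN x)
    congr 1
    refine Finset.sum_congr rfl fun n hn => ?_
    rw [h n (Finset.mem_Icc.1 hn).1]
  · refine (h3 x).congr fun N => ?_
    congr 1
    refine Finset.sum_congr rfl fun n hn => ?_
    rw [h n (Finset.mem_Icc.1 hn).1]

/-- all patterns of almost every modification have the right frequencies -/
theorem ae_chow (g : ℕ →*₀ ℤ) (hg : ∀ p : ℕ, p.Prime → g p = 1 ∨ g p = -1)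
    (Q : Set ℕ) (hQp : ∀ q ∈ Q, q.Prime) (hQ : Thick Q) :
    ∀ᵐ ω ∂coins, ∃ f : ℕ →*₀ ℤ, IsModif g Q ω f ∧ ∃ u : ℕ → ℤˣ, Chow u ∧
      ∀ m : ℕ, m ≠ 0 → f m = ((u m : ℤˣ) : ℤ) := by
  obtain ⟨g', hg'⟩ := exists_unit g hg
  filter_upwards [finalG (tM6 tC0 (tM5 tM1 tM2 tM3 (tM4 tP2 tM4a)) tM6a tM6b) g hg Q hQp hQ]
    with ω hω
  obtain ⟨f, ⟨hf, hfr⟩, -⟩ := hω
  obtain ⟨f', hf', hfm⟩ := isModif_exists g g' hg' Q ω
  have hff : f = f' := isModif_unique g Q ω f f' hf hf'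
  subst hff
  refine ⟨f, hf, modif g' Q ω, ?_, hfm⟩
  intro n t
  have h1 := hfr n (fun j => ((t j : ℤˣ) : ℤ)) (fun j => by
    rcases Int.units_eq_one_or (t j) with h | h
    · left; simp [h]
    · right; simp [h])
  refine h1.congr fun x => ?_
  rw [cnt_eq f (modif g' Q ω) hfm]

end Pool.Agent.TH907.Sar
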