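import Pool.Agent.TH907.Sar.Core

/-!
Zero entropy systems, with weights which are limits of periodic functions in mean.
-/

set_option autoImplicit false

namespace Pool.Agent.TH907.Sar

open Finset Filter Topology Pool.Agent.H220M

/-- periodic weights -/
theorem zero_periodic (f : ℕ → ℤˣ) (hf : Chow f) {X : Type*} [MetricSpace X] [CompactSpace X]
    (T : X → X) (hE : Dynamics.coverEntropy T Set.univ ≤ 0) (F : X → ℂ) (hF : Continuous F)
    (hF1 : ∀ x, ‖F x‖ ≤ 1) (c : ℕ → ℂ) (hc : ∀ n, ‖c n‖ ≤ 1) (P : ℕ) (hP : 0 < P)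
    (hcP : ∀ n, c (n + P) = c n) (ε : ℝ) (hε : 0 < ε) :
    ∃ L₀ : ℕ, ∀ L ≥ L₀, ∀ᶠ N : ℕ in atTop, ∀ y : ℕ → X,
      ∑ m ∈ range N, ‖∑ k ∈ range L, F (T^[k] (y m)) * c (m + k + 1) *
        (((f (m + k + 1) : ℤˣ) : ℤ) : ℂ)‖ ≤ ε * (L * N) := by
  classical
  set δ : ℝ := ε / 4 with hδ
  have hδ0 : 0 < δ := by positivity
  set η : ℝ := δ ^ 2 / 16 with hη
  have hη0 : 0 < η := by positivity
  obtain ⟨L₁, hL₁⟩ := few_words T hE F hF (ε / 4) η (by positivity) hη0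
  -- the exponential decay
  have hdec : ∀ᶠ L : ℕ in atTop, (P : ℝ) * (4 * Real.exp (-(η * L))) ≤ ε / 4 := by
    have h1 : Tendsto (fun L : ℕ => (P : ℝ) * (4 * Real.exp (-(η * L)))) atTop (𝓝 (P * (4 * 0))) := by
      refine Tendsto.const_mul _ (Tendsto.const_mul _ ?_)
      refine Real.tendsto_exp_neg_atTop_nhds_zero.comp ?_
      exact Tendsto.const_mul_atTop hη0 tendsto_natCast_atTop_atTop
    rw [mul_zero, mul_zero] at h1
    exact (h1.eventually (gt_mem_nhds (show (0 : ℝ) < ε / 4 by positivity))).mono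
      fun L hL => le_of_lt hL
  obtain ⟨L₂, hL₂⟩ := eventually_atTop.1 hdec
  refine ⟨max L₁ L₂, fun L hL => ?_⟩
  obtain ⟨s, hs, hsy⟩ := hL₁ L ((le_max_left _ _).trans hL)
  have hdecL := hL₂ L ((le_max_right _ _).trans hL)
  -- periodicity
  have hper : ∀ (r q : ℕ), c (r + q * P) = c r := by
    intro r q
    induction q with
    | zero => simp
    | succ q ih => rw [show r + (q + 1) * P = (r + q * P) + P by ring, hcP, ih]
  set W : Finset (Fin L → ℂ) := (s ×ˢ range P).image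
    (fun p => fun k : Fin L => F (T^[(k : ℕ)] p.1) * c (p.2 + k + 1)) with hW
  have hWcard : (W.card : ℝ) ≤ Real.exp (η * L) * P := by
    have h1 : W.card ≤ s.card * P := by
      refine Finset.card_image_le.trans ?_
      rw [Finset.card_product, Finset.card_range]
    calc (W.card : ℝ) ≤ ((s.card * P : ℕ) : ℝ) := by exact_mod_cast h1
      _ = s.card * P := by push_cast; ring
      _ ≤ _ := mul_le_mul_of_nonneg_right hs (Nat.cast_nonneg _)
  have hW1 : ∀ w ∈ W, ∀ k, ‖w k‖ ≤ 1 := by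
    intro w hw k
    rw [hW, Finset.mem_image] at hw
    obtain ⟨p, _, rfl⟩ := hw
    show ‖F (T^[(k : ℕ)] p.1) * c (p.2 + k + 1)‖ ≤ 1
    rw [norm_mul]
    exact mul_le_one₀ (hF1 _) (norm_nonneg _) (hc _)
  filter_upwards [strong f hf L W hW1 (ε / 4) δ hδ0.le (ε / 4) (by positivity)] with N hN y
  have h1 := hN (fun m k => F (T^[(k : ℕ)] (y m)) * c (m + k + 1))
    (fun m k => by
      show ‖F (T^[(k : ℕ)] (y m)) * c (m + k + 1)‖ ≤ 1
      rw [norm_mul]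
      exact mul_le_one₀ (hF1 _) (norm_nonneg _) (hc _))
    (fun m => by
      obtain ⟨z, hz, hzy⟩ := hsy (y m)
      refine ⟨fun k : Fin L => F (T^[(k : ℕ)] z) * c (m % P + k + 1), ?_, fun k => ?_⟩
      · rw [hW, Finset.mem_image]
        exact ⟨(z, m % P), Finset.mem_product.2 ⟨hz, Finset.mem_range.2 (Nat.mod_lt _ hP)⟩, rfl⟩
      · have h2 : c (m + k + 1) = c (m % P + k + 1) := by
          conv_lhs => rw [← Nat.div_add_mod m P]
          rw [show P * (m / P) + m % P + (k : ℕ) + 1 = (m % P + k + 1) + (m / P) * P by ring, hper]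
        show ‖F (T^[(k : ℕ)] (y m)) * c (m + k + 1) - F (T^[(k : ℕ)] z) * c (m % P + k + 1)‖ ≤ ε / 4
        rw [h2, ← sub_mul, norm_mul]
        calc _ ≤ ε / 4 * 1 := mul_le_mul (hzy k k.2) (hc _) (norm_nonneg _) (by positivity)
          _ = ε / 4 := mul_one _)
  have h2 : ∑ m ∈ range N, ‖∑ k ∈ range L, F (T^[k] (y m)) * c (m + k + 1) *
        (((f (m + k + 1) : ℤˣ) : ℤ) : ℂ)‖ =
      ∑ m ∈ range N, ‖∑ k : Fin L, (F (T^[(k : ℕ)] (y m)) * c (m + k + 1)) *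
        (((f (m + k + 1) : ℤˣ) : ℤ) : ℂ)‖ := by
    refine Finset.sum_congr rfl fun m _ => ?_
    congr 1
    rw [Finset.sum_range]
  rw [h2]
  refine h1.trans (mul_le_mul_of_nonneg_right ?_ (by positivity))
  have h3 : (W.card : ℝ) * (4 * Real.exp (-(δ ^ 2 * L / 8))) ≤ ε / 4 := by
    calc (W.card : ℝ) * (4 * Real.exp (-(δ ^ 2 * L / 8)))
        ≤ (Real.exp (η * L) * P) * (4 * Real.exp (-(δ ^ 2 * L / 8))) :=
          mul_le_mul_of_nonneg_right hWcard (by positivity)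
      _ = P * (4 * (Real.exp (η * L) * Real.exp (-(δ ^ 2 * L / 8)))) := by ring
      _ = P * (4 * Real.exp (-(η * L))) := by
          rw [← Real.exp_add]
          congr 3
          rw [hη]; ring
      _ ≤ ε / 4 := hdecL
  rw [hδ] at h3 ⊢
  linarith

/-- limits of periodic functions in mean -/
def Rap (c : ℕ → ℂ) : Prop :=
  (∀ n, ‖c n‖ ≤ 1) ∧ ∀ ε : ℝ, 0 < ε → ∃ (c' : ℕ → ℂ) (P : ℕ), 0 < P ∧ (∀ n, ‖c' n‖ ≤ 1) ∧
    (∀ n, c' (n + P) = c' n) ∧ ∀ᶠ N : ℕ in atTop, ∑ n ∈ range N, ‖c (n + 1) - c' (n + 1)‖ ≤ ε * N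

theorem zero_rap (f : ℕ → ℤˣ) (hf : Chow f) {X : Type*} [MetricSpace X] [CompactSpace X]
    (T : X → X) (hE : Dynamics.coverEntropy T Set.univ ≤ 0) (F : X → ℂ) (hF : Continuous F)
    (hF1 : ∀ x, ‖F x‖ ≤ 1) (c : ℕ → ℂ) (hc : Rap c) (ε : ℝ) (hε : 0 < ε) :
    ∃ L₀ : ℕ, ∀ L ≥ L₀, ∀ᶠ N : ℕ in atTop, ∀ y : ℕ → X,
      ∑ m ∈ range N, ‖∑ k ∈ range L, F (T^[k] (y m)) * c (m + k + 1) *
        (((f (m + k + 1) : ℤˣ) : ℤ) : ℂ)‖ ≤ ε * (L * N) := by
  obtain ⟨hc1, hc2⟩ := hc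
  obtain ⟨c', P, hP, hc'1, hc'P, happ⟩ := hc2 (ε / 4) (by positivity)
  obtain ⟨L₀, hL₀⟩ := zero_periodic f hf T hE F hF hF1 c' hc'1 P hP hc'P (ε / 2) (by positivity)
  refine ⟨L₀, fun L hL => ?_⟩
  have hNL : ∀ᶠ N : ℕ in atTop, ∑ n ∈ range (N + L), ‖c (n + 1) - c' (n + 1)‖
      ≤ (ε / 4) * ((N + L : ℕ) : ℝ) := (tendsto_add_atTop_nat L).eventually happ
  filter_upwards [hL₀ L hL, hNL, eventually_ge_atTop L] with N hN hN2 hN3 y
  have h1 := hN y
  have hshift : ∀ k ∈ range L, ∑ m ∈ range N, ‖c (m + k + 1) - c' (m + k + 1)‖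
      ≤ (ε / 2) * N := by
    intro k hk
    rw [Finset.mem_range] at hk
    have h2 : ∑ m ∈ range N, ‖c (m + k + 1) - c' (m + k + 1)‖
        ≤ ∑ n ∈ range (N + L), ‖c (n + 1) - c' (n + 1)‖ := by
      have h3 : ∑ m ∈ range N, ‖c (m + k + 1) - c' (m + k + 1)‖
          = ∑ n ∈ (range N).image (fun m => m + k), ‖c (n + 1) - c' (n + 1)‖ := by
        rw [Finset.sum_image]
        intro a _ b _ hab
        exact Nat.add_right_cancel hab
      rw [h3]
      refine Finset.sum_le_sum_of_subset_of_nonneg ?_ (fun _ _ _ => norm_nonneg _)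
      intro n hn
      rw [Finset.mem_image] at hn
      obtain ⟨m, hm, rfl⟩ := hn
      rw [Finset.mem_range] at hm ⊢
      omega
    refine h2.trans (hN2.trans ?_)
    push_cast
    have : (L : ℝ) ≤ N := by exact_mod_cast hN3
    nlinarith
  calc ∑ m ∈ range N, ‖∑ k ∈ range L, F (T^[k] (y m)) * c (m + k + 1) *
        (((f (m + k + 1) : ℤˣ) : ℤ) : ℂ)‖
      ≤ ∑ m ∈ range N, (‖∑ k ∈ range L, F (T^[k] (y m)) * c' (m + k + 1) *
        (((f (m + k + 1) : ℤˣ) : ℤ) : ℂ)‖ + ∑ k ∈ range L, ‖c (m + k + 1) - c' (m + k + 1)‖) := by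
        refine Finset.sum_le_sum fun m _ => ?_
        have h4 : ∑ k ∈ range L, F (T^[k] (y m)) * c (m + k + 1) *
            (((f (m + k + 1) : ℤˣ) : ℤ) : ℂ) = ∑ k ∈ range L, F (T^[k] (y m)) * c' (m + k + 1) *
            (((f (m + k + 1) : ℤˣ) : ℤ) : ℂ) + ∑ k ∈ range L, F (T^[k] (y m)) *
            (c (m + k + 1) - c' (m + k + 1)) * (((f (m + k + 1) : ℤˣ) : ℤ) : ℂ) := by
          rw [← Finset.sum_add_distrib]
          exact Finset.sum_congr rfl fun k _ => by ring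
        rw [h4]
        refine (norm_add_le _ _).trans (add_le_add le_rfl ?_)
        refine (norm_sum_le _ _).trans (Finset.sum_le_sum fun k _ => ?_)
        rw [norm_mul, norm_mul, unit_norm, mul_one]
        calc _ ≤ 1 * ‖c (m + k + 1) - c' (m + k + 1)‖ :=
              mul_le_mul_of_nonneg_right (hF1 _) (norm_nonneg _)
          _ = _ := one_mul _
    _ = ∑ m ∈ range N, ‖∑ k ∈ range L, F (T^[k] (y m)) * c' (m + k + 1) *
        (((f (m + k + 1) : ℤˣ) : ℤ) : ℂ)‖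
        + ∑ k ∈ range L, ∑ m ∈ range N, ‖c (m + k + 1) - c' (m + k + 1)‖ := by
        rw [Finset.sum_add_distrib]
        congr 1
        exact Finset.sum_comm
    _ ≤ ε / 2 * (L * N) + ∑ _k ∈ range L, (ε / 2) * N := add_le_add h1 (Finset.sum_le_sum hshift)
    _ = ε * (L * N) := by
        rw [Finset.sum_const, Finset.card_range, nsmul_eq_mul]; ring

end Pool.Agent.TH907.Sar
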